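import Pool.Agent.W516.K3.Defs4

set_option autoImplicit false

/-! A Lie algebra which maps onto the orthogonal Lie algebra contains the spin Lie algebra. -/

namespace Pool.Agent.W32.DH

open Module TensorProduct Pool.Agent.W516.K3

section

variable {F T H : Type} [Field F] [CharZero F] [AddCommGroup T] [Module F T]
    [AddCommGroup H] [Module F H]

/-- `[γ u, γ v]` -/
def sp (γ : T →ₗ[F] Module.End F H) (u v : T) : Module.End F H := γ u * γ v - γ v * γ u

omit [CharZero F] in
lemma clif (b : T →ₗ[F] T →ₗ[F] F) (γ : T →ₗ[F] Module.End F H)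
    (hc : ∀ u v, γ u * γ v + γ v * γ u = (2 * b u v) • (1 : Module.End F H)) (u v : T) :
    γ u * γ v = (2 * b u v) • (1 : Module.End F H) - γ v * γ u := by
  rw [← hc]; abel

omit [CharZero F] in
lemma three (b : T →ₗ[F] T →ₗ[F] F) (γ : T →ₗ[F] Module.End F H)
    (hc : ∀ u v, γ u * γ v + γ v * γ u = (2 * b u v) • (1 : Module.End F H)) (u v t : T) :
    γ u * γ v * γ t = (2 * b v t) • γ u - (2 * b u t) • γ v + γ t * (γ u * γ v) := by
  rw [mul_assoc, clif b γ hc v t, mul_sub, mul_smul_comm, mul_one, ← mul_assoc,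
    clif b γ hc u t, sub_mul, smul_mul_assoc, one_mul, mul_assoc]
  abel

lemma sp_comm (b : T →ₗ[F] T →ₗ[F] F) (γ : T →ₗ[F] Module.End F H)
    (hc : ∀ u v, γ u * γ v + γ v * γ u = (2 * b u v) • (1 : Module.End F H)) (u v t : T) :
    sp γ u v * γ t - γ t * sp γ u v = (4 : F) • γ (wdg b u v t) := by
  have e : wdg b u v t = b v t • u - b u t • v := rfl
  unfold sp
  rw [e, map_sub, map_smul, map_smul, sub_mul, three b γ hc u v t, three b γ hc v u t, mul_sub,
    smul_sub, smul_smul, smul_smul]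
  have h1 : (4 : F) * b v t = 2 * b v t + 2 * b v t := by ring
  have h2 : (4 : F) * b u t = 2 * b u t + 2 * b u t := by ring
  rw [h1, h2, add_smul, add_smul]
  abel

lemma exists_t [FiniteDimensional F T] (b : T →ₗ[F] T →ₗ[F] F) (hs : ∀ u v, b u v = b v u)
    (hn : ∀ u, (∀ v, b u v = 0) → u = 0) (h5 : 5 ≤ finrank F T) (u v : T) :
    ∃ t, b u t = 0 ∧ b v t = 0 ∧ b t t ≠ 0 := by
  by_contra hcon
  push Not at hcon
  have hinj : ∀ x y, b x = b y → x = y := by
    intro x y hxy
    rw [← sub_eq_zero]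
    refine hn _ fun v => ?_
    rw [map_sub, hxy, sub_self]
    rfl
  obtain ⟨U, hU⟩ : ∃ U : Submodule F T, U = LinearMap.ker ((b u).prod (b v)) := ⟨_, rfl⟩
  have hmem : ∀ x, x ∈ U ↔ b u x = 0 ∧ b v x = 0 := by
    intro x
    rw [hU, LinearMap.mem_ker, LinearMap.prod_apply]
    exact Prod.mk_eq_zero
  have hdim : finrank F T ≤ 2 + finrank F U := by
    have h1 := LinearMap.finrank_range_add_finrank_ker ((b u).prod (b v))
    have h2 := Submodule.finrank_le (LinearMap.range ((b u).prod (b v)))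
    rw [Module.finrank_prod, Module.finrank_self] at h2
    rw [← hU] at h1
    omega
  have hiso : ∀ x ∈ U, ∀ y ∈ U, b x y = 0 := by
    intro x hx y hy
    have hx' := (hmem x).1 hx
    have hy' := (hmem y).1 hy
    have h1 := hcon x hx'.1 hx'.2
    have h2 := hcon y hy'.1 hy'.2
    have h3 := hcon (x + y) (by rw [map_add, hx'.1, hy'.1, add_zero])
      (by rw [map_add, hx'.2, hy'.2, add_zero])
    rw [map_add, map_add, LinearMap.add_apply, LinearMap.add_apply, h1, h2, hs y x] at h3
    have h4 : (2 : F) * b x y = 0 := by linear_combination h3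
    exact (mul_eq_zero.1 h4).resolve_left two_ne_zero
  have hsub : U ≤ Submodule.span F (Set.range ![u, v]) := by
    intro x hx
    have h1 : b x ∈ Submodule.span F (Set.range fun i => b (![u, v] i)) := by
      refine mem_span_of_iInf_ker_le_ker ?_
      intro y hy
      rw [Submodule.mem_iInf] at hy
      have h2 := hy 0
      have h3 := hy 1
      rw [LinearMap.mem_ker] at h2 h3
      exact hiso x hx y ((hmem y).2 ⟨h2, h3⟩)
    have h2 : (Set.range fun i => b (![u, v] i)) = b '' (Set.range ![u, v]) := by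
      rw [← Set.range_comp]
      rfl
    rw [h2, Submodule.span_image] at h1
    obtain ⟨y, hy, hxy⟩ := h1
    rw [← hinj _ _ hxy]
    exact hy
  have h6 : finrank F U ≤ 2 := by
    refine (Submodule.finrank_mono hsub).trans ?_
    have := finrank_range_le_card (R := F) ![u, v]
    rw [Fintype.card_fin] at this
    exact this
  omega

end

theorem T_SPN : S_SPN := by
  intro F T H _ _ _ _ _ _ _ b γ 𝔥 hs hn h5 hc hbr hcom hex u v
  -- brackets
  have key : ∀ u v u' v' : T, sp γ u v * sp γ u' v' - sp γ u' v' * sp γ u v ∈ 𝔥 := by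
    intro u v u' v'
    obtain ⟨Z, hZ, hZ'⟩ := hex u v
    obtain ⟨Y, hY, hY'⟩ := hex u' v'
    obtain ⟨c, hcc⟩ : ∃ c, c = (4 : F) • Z - sp γ u v := ⟨_, rfl⟩
    obtain ⟨d, hd⟩ : ∃ d, d = (4 : F) • Y - sp γ u' v' := ⟨_, rfl⟩
    have hc1 : ∀ t, c * γ t = γ t * c := by
      intro t
      rw [← sub_eq_zero]
      have e : c * γ t - γ t * c = (4 : F) • (Z * γ t - γ t * Z) -
          (sp γ u v * γ t - γ t * sp γ u v) := by
        rw [hcc, sub_mul, mul_sub, smul_mul_assoc, mul_smul_comm, smul_sub]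
        abel
      rw [e, hZ', sp_comm b γ hc, sub_self]
    have hd1 : ∀ t, d * γ t = γ t * d := by
      intro t
      rw [← sub_eq_zero]
      have e : d * γ t - γ t * d = (4 : F) • (Y * γ t - γ t * Y) -
          (sp γ u' v' * γ t - γ t * sp γ u' v') := by
        rw [hd, sub_mul, mul_sub, smul_mul_assoc, mul_smul_comm, smul_sub]
        abel
      rw [e, hY', sp_comm b γ hc, sub_self]
    have hsp : ∀ (P : Module.End F H), (∀ t, P * γ t = γ t * P) → ∀ a e,
        sp γ a e * P = P * sp γ a e := by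
      intro P hP a e
      have hq : ∀ a e, γ a * γ e * P = P * (γ a * γ e) := fun a e => by
        rw [mul_assoc, ← hP e, ← mul_assoc, ← hP a, mul_assoc]
      unfold sp
      rw [sub_mul, mul_sub, hq, hq]
    have hcd : c * d = d * c := by
      have h1 := hcom Z hZ d hd1
      have h2 := hsp d hd1 u v
      rw [hcc, sub_mul, mul_sub, smul_mul_assoc, mul_smul_comm, h1, h2]
    have e1 : sp γ u v = (4 : F) • Z - c := by rw [hcc]; abel
    have e2 : sp γ u' v' = (4 : F) • Y - d := by rw [hd]; abel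
    have e3 := hsp c hc1 u' v'
    have e4 := hsp d hd1 u v
    have e5 : (16 : F) • (Z * Y - Y * Z) =
        sp γ u v * sp γ u' v' - sp γ u' v' * sp γ u v := by
      have h4Z : (4 : F) • Z = sp γ u v + c := by rw [hcc]; abel
      have h4Y : (4 : F) • Y = sp γ u' v' + d := by rw [hd]; abel
      have e6 : (16 : F) • (Z * Y - Y * Z) =
          ((4 : F) • Z) * ((4 : F) • Y) - ((4 : F) • Y) * ((4 : F) • Z) := by
        rw [smul_mul_smul_comm, smul_mul_smul_comm, ← smul_sub]
        norm_num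
      rw [e6, h4Z, h4Y, add_mul, add_mul, mul_add, mul_add, mul_add, mul_add, e3, e4, hcd]
      abel
    rw [← e5]
    exact 𝔥.smul_mem _ (hbr Z hZ Y hY)
  obtain ⟨t, h1, h2, h3⟩ := exists_t b hs hn h5 u v
  have k1 := key u t t v
  obtain ⟨X, hX⟩ : ∃ X, X = sp γ u t := ⟨_, rfl⟩
  have x1 : X * γ t - γ t * X = (4 * b t t) • γ u := by
    rw [hX, sp_comm b γ hc]
    have e : wdg b u t t = b t t • u - b u t • t := rfl
    rw [e, h1, zero_smul, sub_zero, map_smul, smul_smul]
  have x2 : X * γ v - γ v * X = -(4 * b u v) • γ t := by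
    rw [hX, sp_comm b γ hc]
    have e : wdg b u t v = b t v • u - b u v • t := rfl
    rw [e, hs t v, h2, zero_smul, zero_sub, map_neg, map_smul, smul_neg, smul_smul, neg_smul]
  have e7 : X * sp γ t v - sp γ t v * X = (4 * b t t) • sp γ u v := by
    have e8 : X * sp γ t v - sp γ t v * X =
        ((X * γ t - γ t * X) * γ v + γ t * (X * γ v - γ v * X)) -
        ((X * γ v - γ v * X) * γ t + γ v * (X * γ t - γ t * X)) := by
      unfold sp
      simp only [mul_sub, sub_mul, mul_assoc]
      abel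
    rw [e8, x1, x2]
    unfold sp
    rw [smul_mul_assoc, mul_smul_comm, smul_mul_assoc, mul_smul_comm, smul_sub]
    abel
  rw [← hX, e7] at k1
  have h4 : (4 * b t t : F) ≠ 0 := mul_ne_zero (by norm_num) h3
  have k2 := 𝔥.smul_mem ((4 * b t t)⁻¹) k1
  rw [smul_smul, inv_mul_cancel₀ h4, one_smul] at k2
  exact k2

end Pool.Agent.W32.DH
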